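import Pool.Agent.H29.DW.BS
import Pool.Agent.H31.FW.TargetsG

/-!
# The bound of Weyl for friable conductors: row BS (the bound for the integral over all positions)
-/

set_option autoImplicit false
set_option linter.unusedVariables false

open NumberField NumberField.InfinitePlace NumberField.Units
  NumberField.Units.dirichletUnitTheorem MeasureTheory Set Filter Complex
open scoped nonZeroDivisors ENNReal

namespace Pool.Agent.H19.FW.BS

open Pool.Agent.H25.HK Pool.Agent.H23.LB Pool.Agent.H23.LC Pool.Agent.H29.DW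
open Pool.Agent.H28.RC (Rep ft idl)
open Pool.Agent.H29.TC (dvs)
open Pool.Agent.H31.FW

/-- the last numerical step -/
theorem fin_numQ {n : ℕ} {ε κ X Q d j k H : ℝ} (hε : 0 < ε) (hε1 : ε ≤ 1) (hκ0 : 0 < κ)
    (hκ : κ ≤ ε / 16) (hX : 1 ≤ X) (hd : 1 ≤ d) (hj : 1 ≤ j) (hk : 1 ≤ k) (hH : 1 ≤ H)
    (hX2 : X ^ 2 ≤ 3 ^ n * (d * j * k * H ^ 3)) (hQ : Q = d * j * k * H) :
    Q ^ (ε / 8) * Real.exp ((2 * κ + ε / 8 + 2 * (ε / 16)) * Real.log X) ≤ 3 ^ n * Q ^ ε := by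
  have hX0 : 0 < X := by linarith
  have hQ1 : 1 ≤ Q := by
    rw [hQ]
    exact one_le_mul_of_one_le_of_one_le (one_le_mul_of_one_le_of_one_le
      (one_le_mul_of_one_le_of_one_le hd hj) hk) hH
  have hQ0 : 0 < Q := by linarith
  have h1 : Real.exp ((2 * κ + ε / 8 + 2 * (ε / 16)) * Real.log X) =
      (X ^ 2) ^ (κ + ε / 8) := by
    rw [mul_comm, ← Real.rpow_def_of_pos hX0, ← Real.rpow_natCast, ← Real.rpow_mul hX0.le]
    congr 1
    push_cast
    ring
  have h2 : X ^ 2 ≤ 3 ^ n * Q ^ 3 := by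
    refine hX2.trans (mul_le_mul_of_nonneg_left ?_ (by positivity))
    rw [hQ]
    have e : (d * j * k * H) ^ 3 = (d * j * k * H ^ 3) * (d ^ 2 * j ^ 2 * k ^ 2) := by ring
    rw [e]
    refine le_mul_of_one_le_right (by positivity) ?_
    exact one_le_mul_of_one_le_of_one_le (one_le_mul_of_one_le_of_one_le
      (one_le_pow₀ hd) (one_le_pow₀ hj)) (one_le_pow₀ hk)
  have h3 : (X ^ 2) ^ (κ + ε / 8) ≤ 3 ^ n * Q ^ (3 * (κ + ε / 8)) := by
    refine (Real.rpow_le_rpow (by positivity) h2 (by positivity)).trans ?_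
    rw [Real.mul_rpow (by positivity) (by positivity), ← Real.rpow_natCast Q 3,
      ← Real.rpow_mul hQ0.le]
    push_cast
    refine mul_le_mul_of_nonneg_right ?_ (by positivity)
    calc ((3 : ℝ) ^ n) ^ (κ + ε / 8) ≤ ((3 : ℝ) ^ n) ^ (1 : ℝ) :=
          Real.rpow_le_rpow_of_exponent_le (one_le_pow₀ (by norm_num)) (by linarith)
      _ = 3 ^ n := Real.rpow_one _
  rw [h1]
  calc Q ^ (ε / 8) * (X ^ 2) ^ (κ + ε / 8)
      ≤ Q ^ (ε / 8) * (3 ^ n * Q ^ (3 * (κ + ε / 8))) :=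
        mul_le_mul_of_nonneg_left h3 (by positivity)
    _ = 3 ^ n * Q ^ (ε / 8 + 3 * (κ + ε / 8)) := by
        rw [Real.rpow_add hQ0]
        ring
    _ ≤ 3 ^ n * Q ^ ε := by
        refine mul_le_mul_of_nonneg_left ?_ (by positivity)
        exact Real.rpow_le_rpow_of_exponent_le hQ1 (by linarith)

open scoped Classical in
/-- one piece -/
theorem pieceQ (hIN : V_IN) (hTT : Q_TT) (hMS : V_MS) (hPB : V_PB) (hRR : T_RR) (hTH : T_TH)
    (hYC : T_YC) (hFD : T_FD) :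
    ∀ n : ℕ, 0 < n → ∀ ε : ℝ, 0 < ε → ε ≤ 1 → ∃ C : ℝ, 0 ≤ C ∧ ∀ κ : ℝ, 0 < κ → κ ≤ 1 →
    ∀ (K : Type) [Field K] [NumberField K], Module.finrank ℚ K = n → ∀ (ι : Type) [Fintype ι]
    (M : ι → FI K), Reps K M → ∀ (j q : Ideal (𝓞 K)) (D : ℝ) (f : ι → K → ℂ)
    (X₁ : ι → Finset K) (cp : InfinitePlace K → ℂ) (H : InfinitePlace K → ℝ)
    (X B Λ : ℝ) (v : ℝ → ℂ) (cc : ι → K → ℂ) (s : Bool), j ≠ ⊥ → q ≠ ⊥ → 1 ≤ D →
    (∀ c, CorQ j q (M c) (f c) D) → (∀ c, Rep K j (M c) (X₁ c)) → Prm cp H → 1 ≤ X →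
    0 ≤ B →
    Wt κ X B v → 0 ≤ Λ → (∀ c, ∃ A : ℝ, ∀ x ∈ M c, ‖cc c x‖ ≤ A) →
    (∀ (c : ι) (p : InfinitePlace K → ℂ → ℂ) (y : InfinitePlace K → ℝ)
      (ω : InfinitePlace K → ℂ), (∀ v, ∃ B' : ℝ, Bmp (2 * n + 4) B' (p v)) → Pos ω →
      ‖∑' x : {x : K // x ∈ M c}, cc c x * Wg cp H p x y ω‖ ^ 2 ≤
        Λ * ∑ r ∈ X₁ c, ‖Sq j (M c) (f c) r cp H p y ω‖ ^ 2) →
    ∀ τ₁ σ : ℝ, (σ = κ ∨ σ = 1) →
    (∑ c, ∫⁻ u in Sp' K τ₁,
      ENNReal.ofReal ‖∑' x : {x : K // x ∈ M c ∧ x ≠ 0}, cc c x *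
        v (Ideal.absNorm (idl K (M c) x)) *
          Wg cp H pb x (yM K (M c) u.2.1 (zs s u.1)) (om s u.2.2)‖) ^ 2 ≤
    ENNReal.ofReal (C * (classNumber K * regulator K) * (B * X ^ σ) ^ 2 *
      Real.exp (τ₁ * (1 + 2 * σ)) * Λ * (cw K * ((dvs K q).card * D) *
      (|(discr K : ℝ)| * Nf K j * Nf K q * HH H * Real.exp |τ₁|) ^ ε *
      (Real.exp (-τ₁) * (HH H)⁻¹ * (1 + Real.sqrt (Nf K q) / Nf K j +
        Real.exp (-τ₁) * (HH H ^ 2)⁻¹ / (Real.sqrt |(discr K : ℝ)| * Nf K j * Real.sqrt (Nf K q)))))) := by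
  intro n hn0 ε hε hε1
  obtain ⟨CT, hCT, hTT'⟩ := hTT n hn0 ε hε hε1
  obtain ⟨CB, hCB, hPB'⟩ := hPB (2 * n + 4)
  -- the constants
  set J : ℝ≥0∞ := ∫⁻ w : ℝ, ENNReal.ofReal (Real.exp (-w ^ 2 / 4) *
    ((CB * (4 + 2 * |w|) ^ (2 * n + 4)) ^ (2 * n))) with hJ
  have hJfin : J < ⊤ := by
    have h1 := gauss_poly ((2 * n + 4) * (2 * n))
    have h2 : J = ENNReal.ofReal (CB ^ (2 * n)) * ∫⁻ w : ℝ, ENNReal.ofReal
        (Real.exp (-w ^ 2 / 4) * (4 + 2 * |w|) ^ ((2 * n + 4) * (2 * n))) := by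
      rw [hJ, ← lintegral_const_mul' _ _ ENNReal.ofReal_ne_top]
      refine lintegral_congr fun w => ?_
      rw [← ENNReal.ofReal_mul (by positivity), mul_pow, ← pow_mul]
      congr 1
      ring
    rw [h2]
    exact ENNReal.mul_lt_top ENNReal.ofReal_lt_top h1
  set I₀ : ℝ≥0∞ := ∫⁻ w : ℝ, ENNReal.ofReal (Real.exp (-w ^ 2 / 4)) with hI₀
  have hI₀fin : I₀ < ⊤ := by
    have h1 := gauss_poly 0
    simpa only [pow_zero, mul_one] using h1
  refine ⟨Real.exp 3 * I₀.toReal * (2 * Real.pi) ^ n * CT * J.toReal, by positivity, ?_⟩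
  intro κ hκ0 hκ1 K _ _ hn ι _ M hM j q D f X₁ cp H X B Λ v cc s hj hk hD hcor hX₁ hP hX hB hv
    hΛ hcc hle τ₁ σ hσ
  have hσ0 : 0 < σ := by rcases hσ with rfl | rfl <;> linarith
  have hσ1 : σ ≤ 1 := by rcases hσ with rfl | rfl <;> linarith
  have hH : ∀ v, 1 ≤ H v := fun v => hP.one_le v
  have hX0 : 0 < X := lt_of_lt_of_le one_pos hX
  set S := Sp' K τ₁ with hS
  have hSm : MeasurableSet S := Sp'_meas hFD τ₁
  set ρ : ℝ → ℝ≥0∞ := fun w => ENNReal.ofReal (Real.exp (-w ^ 2 / 4)) with hρ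
  have hρm : Measurable ρ := by
    rw [hρ]
    fun_prop
  set G : ι → ℝ → logSpace K × ℝ × (InfinitePlace K → ℝ) → ℝ≥0∞ := fun c w u =>
    ENNReal.ofReal ‖Gw (M c) cp H (cc c) s σ w u‖ with hG
  have hGm : ∀ c, Measurable (fun a : ℝ × (logSpace K × ℝ × (InfinitePlace K → ℝ)) =>
      G c a.1 a.2) := fun c =>
    ENNReal.measurable_ofReal.comp (Gw_measurable hTH hYC (M c) (hM.1 c) hH (cc c) s σ).norm
  have hm1 : ∀ c, Measurable (fun a : ℝ × (logSpace K × ℝ × (InfinitePlace K → ℝ)) =>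
      ρ a.1 * G c a.1 a.2) := fun c => (hρm.comp measurable_fst).mul (hGm c)
  have hm2 : ∀ c, Measurable (fun a : ℝ × (logSpace K × ℝ × (InfinitePlace K → ℝ)) =>
      ρ a.1 * G c a.1 a.2 ^ 2) := fun c =>
    (hρm.comp measurable_fst).mul ((hGm c).pow_const 2)
  have hm3 : Measurable (fun a : ℝ × (logSpace K × ℝ × (InfinitePlace K → ℝ)) => ρ a.1) :=
    hρm.comp measurable_fst
  have hm4 : ∀ c, Measurable (fun w : ℝ => ρ w * ∫⁻ u in S, G c w u ^ 2) := fun c =>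
    hρm.mul (((hGm c).pow_const 2).lintegral_prod_right' (ν := volume.restrict S))
  set E : ℝ≥0∞ := ENNReal.ofReal (B * X ^ σ * (Real.exp (3 / 2) *
    Real.exp (τ₁ * (1 / 2 + σ)))) with hE
  -- step 1: the integral representation
  have h1 : ∀ c, ∀ u ∈ S, ENNReal.ofReal ‖∑' x : {x : K // x ∈ M c ∧ x ≠ 0}, cc c x *
        v (Ideal.absNorm (idl K (M c) x)) *
          Wg cp H pb x (yM K (M c) u.2.1 (zs s u.1)) (om s u.2.2)‖ ≤
      E * ∫⁻ w : ℝ, ρ w * G c w u := by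
    intro c u hu
    refine (hIN K (M c) cp H (cc c) s κ X B v (hM.1 c) hP (hcc c) hκ0 hκ1 hX0 hB hv
      (zs s u.1) u.2.1 u.2.2 σ hσ).trans ?_
    refine mul_le_mul' (ENNReal.ofReal_le_ofReal ?_) (le_of_eq (lintegral_congr fun w => ?_))
    · refine mul_le_mul_of_nonneg_left ?_ (by positivity)
      rw [← Real.exp_add]
      apply Real.exp_le_exp.2
      have h2 : u.2.1 ≤ τ₁ + 1 := hu.2.1.2
      nlinarith
    · rw [hρ, hG]
      simp only
      rw [← ENNReal.ofReal_mul (Real.exp_pos _).le]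
      rfl
  have h2 : ∑ c, ∫⁻ u in S, ENNReal.ofReal ‖∑' x : {x : K // x ∈ M c ∧ x ≠ 0}, cc c x *
        v (Ideal.absNorm (idl K (M c) x)) *
          Wg cp H pb x (yM K (M c) u.2.1 (zs s u.1)) (om s u.2.2)‖ ≤
      E * ∑ c, ∫⁻ a, ρ a.1 * G c a.1 a.2 ∂((volume : Measure ℝ).prod (volume.restrict S)) := by
    rw [Finset.mul_sum]
    refine Finset.sum_le_sum fun c _ => ?_
    refine (setLIntegral_mono' hSm (h1 c)).trans (le_of_eq ?_)
    rw [lintegral_const_mul' _ _ ENNReal.ofReal_ne_top]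
    exact congrArg (fun t => E * t) (lintegral_prod_symm' _ (hm1 c)).symm
  -- step 2: Cauchy-Schwarz
  have h3 : ∀ c, (∫⁻ a, ρ a.1 * G c a.1 a.2
      ∂((volume : Measure ℝ).prod (volume.restrict S))) ^ 2 ≤
      (I₀ * volume S) * ∫⁻ w : ℝ, ρ w * ∫⁻ u in S, G c w u ^ 2 := by
    intro c
    refine (cs_weight _ hm3 (hGm c)).trans ?_
    refine mul_le_mul' (le_of_eq ?_) (le_of_eq ?_)
    · refine (lintegral_prod _ hm3.aemeasurable).trans ?_
      simp only [lintegral_const, Measure.restrict_apply MeasurableSet.univ, univ_inter]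
      rw [lintegral_mul_const _ hρm]
    · refine (lintegral_prod _ (hm2 c).aemeasurable).trans ?_
      refine lintegral_congr fun w => ?_
      have hρt : ρ w ≠ ⊤ := ENNReal.ofReal_ne_top
      exact lintegral_const_mul' (ρ w) (fun u => G c w u ^ 2) hρt
  -- step 3: the mean square
  set R₁ : ℝ := cw K * ((dvs K q).card * D) *
      (|(discr K : ℝ)| * Nf K j * Nf K q * HH H * Real.exp |τ₁|) ^ ε *
      (Real.exp (-τ₁) * (HH H)⁻¹ * (1 + Real.sqrt (Nf K q) / Nf K j +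
        Real.exp (-τ₁) * (HH H ^ 2)⁻¹ / (Real.sqrt |(discr K : ℝ)| * Nf K j * Real.sqrt (Nf K q)))) with hR₁
  have hHH := one_le_HH hH
  have hNj : 0 ≤ Nf K j := by unfold Nf; positivity
  have hNk : 0 ≤ Nf K q := by unfold Nf; positivity
  have hcw : 0 ≤ cw K := by unfold cw; positivity
  have hR₁0 : 0 ≤ R₁ := by
    rw [hR₁]
    positivity
  have h4 : ∀ w : ℝ, ∑ c, ∫⁻ u in S, G c w u ^ 2 ≤ ENNReal.ofReal (Λ * (CT *
      (CB * (4 + 2 * |w|) ^ (2 * n + 4)) ^ (2 * n) * R₁)) := by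
    intro w
    have hB' : 1 ≤ CB * (4 + 2 * |w|) ^ (2 * n + 4) := by
      have h5 : (1 : ℝ) ≤ (4 + 2 * |w|) ^ (2 * n + 4) :=
        one_le_pow₀ (by linarith [abs_nonneg w])
      exact one_le_mul_of_one_le_of_one_le hCB h5
    have hbm : ∀ v, Bmp (2 * n + 4) (CB * (4 + 2 * |w|) ^ (2 * n + 4))
        (pl H (1 / 2 + σ + w * I) v) := fun v => pl_bmp hCB hPB' hH hσ0 hσ1 w v
    have h5 := hTT' K hn ι M hM j q D f X₁ cp H (pl H (1 / 2 + σ + w * I))
      (CB * (4 + 2 * |w|) ^ (2 * n + 4)) s τ₁ hj hk hD hcor hX₁ hP hB' hbm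
    rw [ENNReal.ofReal_mul hΛ]
    have h6 : ∀ c, ∫⁻ u in S, G c w u ^ 2 ≤ ENNReal.ofReal Λ *
        ∫⁻ z in Fd K, ∫⁻ τ in Icc τ₁ (τ₁ + 1), ∫⁻ θ in An K, ∑ r ∈ X₁ c,
      ENNReal.ofReal (‖Sq j (M c) (f c) r cp H (pl H (1 / 2 + σ + w * I))
        (yM K (M c) τ (zs s z)) (om s θ)‖ ^ 2) := by
      intro c
      have hm : Measurable (fun u : logSpace K × ℝ × (InfinitePlace K → ℝ) => ∑ r ∈ X₁ c,
          ENNReal.ofReal (‖Sq j (M c) (f c) r cp H (pl H (1 / 2 + σ + w * I))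
            (yM K (M c) u.2.1 (zs s u.1)) (om s u.2.2)‖ ^ 2)) := by
        refine Finset.measurable_fun_sum _ fun r _ => ?_
        refine ENNReal.measurable_ofReal.comp ?_
        refine Measurable.pow_const (Measurable.norm ?_) 2
        have h7 := (hMS K (M c) cp H (pl H (1 / 2 + σ + w * I))
          (fun x => ci K j (M c) r x * f c x) s (hM.1 c) hP
          (fun v => ⟨_, (hbm v).mono (Nat.zero_le _) le_rfl⟩) ⟨1, fun x hx => by
            rw [norm_mul]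
            have h8 : ‖ci K j (M c) r x‖ ≤ 1 := by
              unfold ci
              split_ifs <;> simp
            exact mul_le_one₀ h8 (norm_nonneg _) ((hcor c).norm x hx)⟩).1
        exact h7
      rw [← Sp'_int hFD τ₁ hm, ← lintegral_const_mul' _ _ ENNReal.ofReal_ne_top]
      refine lintegral_mono fun u => ?_
      rw [hG]
      simp only
      rw [← ENNReal.ofReal_pow (norm_nonneg _),
        ← ENNReal.ofReal_sum_of_nonneg (fun r _ => by positivity), ← ENNReal.ofReal_mul hΛ]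
      refine ENNReal.ofReal_le_ofReal ?_
      exact hle c (pl H (1 / 2 + σ + w * I)) (yM K (M c) u.2.1 (zs s u.1)) (om s u.2.2)
        (fun v => ⟨_, hbm v⟩) (Pos_om s u.2.2)
    refine (Finset.sum_le_sum fun c _ => h6 c).trans ?_
    rw [← Finset.mul_sum]
    refine mul_le_mul' le_rfl (h5.trans (le_of_eq ?_))
    rw [hR₁]
    congr 1
    ring
  have h5 : ∑ c, ∫⁻ w : ℝ, ρ w * ∫⁻ u in S, G c w u ^ 2 ≤ ENNReal.ofReal (Λ * (CT * R₁)) * J := by
    rw [← lintegral_finsetSum _ (fun c _ => hm4 c), hJ,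
      ← lintegral_const_mul' _ _ ENNReal.ofReal_ne_top]
    refine lintegral_mono fun w => ?_
    simp only
    rw [← Finset.mul_sum]
    refine (mul_le_mul' le_rfl (h4 w)).trans (le_of_eq ?_)
    rw [hρ]
    simp only
    rw [← ENNReal.ofReal_mul (Real.exp_pos _).le, ← ENNReal.ofReal_mul (by positivity)]
    congr 1
    ring
  -- assembly
  have h6 : (∑ c, ∫⁻ a, ρ a.1 * G c a.1 a.2
      ∂((volume : Measure ℝ).prod (volume.restrict S))) ^ 2 ≤
      (Fintype.card ι : ℝ≥0∞) * ((I₀ * volume S) * (ENNReal.ofReal (Λ * (CT * R₁)) * J)) := by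
    refine (cs_sum _).trans (mul_le_mul' le_rfl ?_)
    refine (Finset.sum_le_sum fun c _ => h3 c).trans ?_
    rw [← Finset.mul_sum]
    exact mul_le_mul' le_rfl h5
  refine (pow_le_pow_left₀ (zero_le) h2 2).trans ?_
  rw [mul_pow]
  refine (mul_le_mul' le_rfl h6).trans ?_
  have hcard : (Fintype.card ι : ℝ≥0∞) = ENNReal.ofReal (classNumber K) := by
    rw [(hRR K ι M hM).2.2, ENNReal.ofReal_natCast]
  have hreg : 0 < regulator K := regulator_pos K
  rw [hcard]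
  calc E ^ 2 * (ENNReal.ofReal (classNumber K) *
        ((I₀ * volume S) * (ENNReal.ofReal (Λ * (CT * R₁)) * J)))
      ≤ E ^ 2 * (ENNReal.ofReal (classNumber K) *
        ((I₀ * (ENNReal.ofReal (regulator K) * ENNReal.ofReal ((2 * Real.pi) ^ n))) *
          (ENNReal.ofReal (Λ * (CT * R₁)) * J))) := by
        gcongr
        exact Sp'_vol hn hFD τ₁
    _ = ENNReal.ofReal ((B * X ^ σ * (Real.exp (3 / 2) * Real.exp (τ₁ * (1 / 2 + σ)))) ^ 2 *
        (classNumber K * ((I₀.toReal * (regulator K * (2 * Real.pi) ^ n)) *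
          ((Λ * (CT * R₁)) * J.toReal)))) := by
        rw [hE, ← ENNReal.ofReal_pow (by positivity)]
        conv_lhs => rw [← ENNReal.ofReal_toReal hI₀fin.ne, ← ENNReal.ofReal_toReal hJfin.ne]
        rw [← ENNReal.ofReal_mul (by positivity), ← ENNReal.ofReal_mul (by positivity),
          ← ENNReal.ofReal_mul (by positivity), ← ENNReal.ofReal_mul (by positivity),
          ← ENNReal.ofReal_mul (by positivity), ← ENNReal.ofReal_mul (by positivity)]
    _ = _ := by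
        congr 1
        have e1 : (Real.exp (3 / 2) * Real.exp (τ₁ * (1 / 2 + σ))) ^ 2 =
            Real.exp 3 * Real.exp (τ₁ * (1 + 2 * σ)) := by
          rw [mul_pow, ← Real.exp_nat_mul, ← Real.exp_nat_mul]
          congr 2
          · norm_num
          · push_cast
            ring
        rw [mul_pow (B * X ^ σ), e1]
        ring

open scoped Classical in
/-- (BS) the bound for the integral over all positions. -/
theorem pf_BS (hIN : V_IN) (hTT : Q_TT) (hMS : V_MS) (hPB : V_PB) (hRR : T_RR) (hTH : T_TH)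
    (hYC : T_YC) (hFD : T_FD) : Q_BS := by
  intro n hn0 ε κ hε hε1 hκ0 hκ
  obtain ⟨C₅, hC₅, hpiece⟩ := pieceQ hIN hTT hMS hPB hRR hTH hYC hFD n hn0 (ε / 8) (by positivity)
    (by linarith)
  have hκ1 : κ ≤ 1 := by linarith
  set S₀ : ℝ := Real.exp (ε / 16 * n) * (1 - Real.exp (-(ε / 16)))⁻¹ with hS₀
  have hexp1 : Real.exp (-(ε / 16)) < 1 := by
    rw [Real.exp_lt_one_iff]
    linarith
  have hS₀0 : 0 ≤ S₀ := by
    rw [hS₀]
    have : 0 < 1 - Real.exp (-(ε / 16)) := by linarith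
    positivity
  refine ⟨C₅ * (Real.exp (3 * n) * (1 + 3 ^ n)) * S₀ ^ 2 * 3 ^ n, by positivity, ?_⟩
  intro K _ _ hn ι _ M hM j q D f X₁ cp H X B Λ v cc s hj hk hD hcor hX₁ hP hX hX2 hB hv hΛ hcc
    hle
  have hH : ∀ v, 1 ≤ H v := fun v => hP.one_le v
  have hHH := one_le_HH hH
  have hNj : 1 ≤ Nf K j := by
    unfold Nf
    have h : Ideal.absNorm j ≠ 0 := fun h => hj (Ideal.absNorm_eq_zero_iff.1 h)
    exact_mod_cast Nat.one_le_iff_ne_zero.2 h
  have hNk : 1 ≤ Nf K q := by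
    unfold Nf
    have h : Ideal.absNorm q ≠ 0 := fun h => hk (Ideal.absNorm_eq_zero_iff.1 h)
    exact_mod_cast Nat.one_le_iff_ne_zero.2 h
  have hsq : 1 ≤ Real.sqrt (Nf K q) := Real.one_le_sqrt.mpr hNk
  have hd : 1 ≤ |(discr K : ℝ)| := by
    have h : (1 : ℤ) ≤ |discr K| := Int.one_le_abs (discr_ne_zero K)
    have h2 : ((1 : ℤ) : ℝ) ≤ ((|discr K| : ℤ) : ℝ) := by exact_mod_cast h
    simpa using h2
  have hcw : 0 ≤ cw K := by unfold cw; positivity
  have hreg : 0 < regulator K := regulator_pos K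
  have hX0 : 0 < X := by linarith
  set x : ℝ := Real.log X with hx
  have hx0 : 0 ≤ x := Real.log_nonneg hX
  have hXe : Real.exp x = X := Real.exp_log hX0
  set ρ : ℝ := Real.sqrt (Nf K q) / Nf K j with hρ
  have hρ0 : 0 ≤ ρ := by
    rw [hρ]
    positivity
  set a : ℝ := (HH H ^ 2)⁻¹ / (Real.sqrt |(discr K : ℝ)| * Nf K j * Real.sqrt (Nf K q)) with ha
  have ha0 : 0 ≤ a := by
    rw [ha]
    positivity
  have ha1 : Real.exp x * a ≤ 3 ^ n := by
    rw [hXe, ha]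
    exact X_bound hX hd hNj hsq hHH (by rw [Real.sq_sqrt (by linarith)]; exact hX2)
  set Q : ℝ := |(discr K : ℝ)| * Nf K j * Nf K q * HH H with hQ
  have hQ1 : 1 ≤ Q := by
    rw [hQ]
    exact one_le_mul_of_one_le_of_one_le (one_le_mul_of_one_le_of_one_le
      (one_le_mul_of_one_le_of_one_le hd hNj) hNk) hHH
  set W : ℝ := C₅ * (classNumber K * regulator K) * B ^ 2 * Λ * (cw K * ((dvs K q).card * D)) *
    Q ^ (ε / 8) * (HH H)⁻¹ * ((Real.exp (3 * n) * (1 + 3 ^ n)) * (1 + ρ)) with hW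
  have hW0 : 0 ≤ W := by
    rw [hW]
    positivity
  set F : ι → logSpace K × ℝ × (InfinitePlace K → ℝ) → ℝ≥0∞ := fun c u =>
    ENNReal.ofReal ‖∑' x : {x : K // x ∈ M c ∧ x ≠ 0}, cc c x *
      v (Ideal.absNorm (idl K (M c) x)) *
        Wg cp H pb x (yM K (M c) u.2.1 (zs s u.1)) (om s u.2.2)‖ with hF
  -- the support
  have hsupp : ∀ c u, (n : ℝ) < u.2.1 → F c u = 0 := by
    intro c u hu
    have h1 := (hMS K (M c) cp H pb (cc c) s (hM.1 c) hP (fun v => ⟨1, pb_zero K v⟩)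
      (hcc c)).2.2.1
    rw [hF]
    simp only
    have h2 : ∀ x : {x : K // x ∈ M c ∧ x ≠ 0}, cc c x *
        v (Ideal.absNorm (idl K (M c) x)) *
          Wg cp H pb x (yM K (M c) u.2.1 (zs s u.1)) (om s u.2.2) = 0 := by
      intro x
      have h3 : Wg cp H pb x.1 (yM K (M c) u.2.1 (zs s u.1)) (om s u.2.2) = 0 := by
        by_contra h4
        have h5 := (h1 (zs s u.1) u.2.1 u.2.2 x.1 x.2.1 h4).2
        rw [hn] at h5
        linarith
      rw [h3, mul_zero]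
    simp only [h2, tsum_zero, norm_zero, ENNReal.ofReal_zero]
  -- the pieces
  set sg : ℕ → ℝ := fun i => Real.exp ((κ + ε / 16) * x + ε / 16 * (x + ((n : ℝ) - i))) with hsg
  have hpc : ∀ i : ℕ, ∑ c, ∫⁻ u in Sp' K ((n : ℝ) - i), F c u ≤
      ENNReal.ofReal (Real.sqrt W * sg i) := by
    intro i
    set τ : ℝ := (n : ℝ) - i with hτ
    have hτn : τ ≤ n := by
      rw [hτ]
      have : (0 : ℝ) ≤ i := Nat.cast_nonneg i
      linarith
    set σ : ℝ := if -τ ≤ x then κ else 1 with hσ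
    have hσ' : σ = κ ∨ σ = 1 := by
      rw [hσ]
      split_ifs
      · exact Or.inl rfl
      · exact Or.inr rfl
    have h1 := hpiece κ hκ0 hκ1 K hn ι M hM j q D f X₁ cp H X B Λ v cc s hj hk hD hcor hX₁ hP hX
      hB hv hΛ hcc hle τ σ hσ'
    have h2 := real_piece (n := n) (κ := κ) (e := ε / 8) (δ := ε / 16) (x := x) (τ := τ)
      (ρ := ρ) (a := a) hκ0 hκ1 (by positivity) (by positivity) (by linarith) hx0 hτn hρ0 ha0 ha1
      σ hσ
    have h3 : (Real.sqrt W * sg i) ^ 2 = W * (Real.exp ((2 * κ + ε / 8) * x) *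
        Real.exp (2 * (ε / 16) * (x + τ))) := by
      rw [mul_pow, Real.sq_sqrt hW0, hsg]
      simp only
      rw [← Real.exp_nat_mul, ← Real.exp_add]
      congr 2
      push_cast
      rw [← hτ]
      ring
    have h4 : (∑ c, ∫⁻ u in Sp' K τ, F c u) ^ 2 ≤ ENNReal.ofReal (Real.sqrt W * sg i) ^ 2 := by
      refine h1.trans ?_
      rw [← ENNReal.ofReal_pow (by positivity), h3]
      refine ENNReal.ofReal_le_ofReal ?_
      have e1 : (X ^ σ) ^ 2 * Real.exp (τ * (1 + 2 * σ)) * Real.exp (-τ) =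
          Real.exp (2 * σ * (x + τ)) := by
        rw [Real.rpow_def_of_pos hX0, ← hx, ← Real.exp_nat_mul, ← Real.exp_add, ← Real.exp_add]
        congr 1
        push_cast
        ring
      have e2 : (Q * Real.exp |τ|) ^ (ε / 8) = Q ^ (ε / 8) * Real.exp (ε / 8 * |τ|) := by
        rw [Real.mul_rpow (by positivity) (by positivity), ← Real.exp_mul, mul_comm |τ|]
      have e3 : Real.exp (-τ) * (HH H ^ 2)⁻¹ /
          (Real.sqrt |(discr K : ℝ)| * Nf K j * Real.sqrt (Nf K q)) = Real.exp (-τ) * a := by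
        rw [ha, mul_div_assoc]
      rw [e2, e3]
      calc C₅ * (classNumber K * regulator K) * (B * X ^ σ) ^ 2 *
            Real.exp (τ * (1 + 2 * σ)) * Λ * (cw K * ((dvs K q).card * D) *
            (Q ^ (ε / 8) * Real.exp (ε / 8 * |τ|)) *
            (Real.exp (-τ) * (HH H)⁻¹ * (1 + ρ + Real.exp (-τ) * a)))
          = (C₅ * (classNumber K * regulator K) * B ^ 2 * Λ * (cw K * ((dvs K q).card * D)) *
            Q ^ (ε / 8) * (HH H)⁻¹) * (((X ^ σ) ^ 2 * Real.exp (τ * (1 + 2 * σ)) *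
              Real.exp (-τ)) * Real.exp (ε / 8 * |τ|) * (1 + ρ + Real.exp (-τ) * a)) := by ring
        _ = (C₅ * (classNumber K * regulator K) * B ^ 2 * Λ * (cw K * ((dvs K q).card * D)) *
            Q ^ (ε / 8) * (HH H)⁻¹) * (Real.exp (2 * σ * (x + τ)) *
              Real.exp (ε / 8 * |τ|) * (1 + ρ + Real.exp (-τ) * a)) := by rw [e1]
        _ ≤ (C₅ * (classNumber K * regulator K) * B ^ 2 * Λ * (cw K * ((dvs K q).card * D)) *
            Q ^ (ε / 8) * (HH H)⁻¹) * ((Real.exp (3 * n) * (1 + 3 ^ n)) * (1 + ρ) *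
              (Real.exp ((2 * κ + ε / 8) * x) * Real.exp (2 * (ε / 16) * (x + τ)))) :=
            mul_le_mul_of_nonneg_left h2 (by positivity)
        _ = W * (Real.exp ((2 * κ + ε / 8) * x) * Real.exp (2 * (ε / 16) * (x + τ))) := by
            rw [hW]
            ring
    exact (ENNReal.pow_le_pow_left_iff two_ne_zero).1 h4
  -- the sum
  have hsum : ∑ c, ∫⁻ u in Fd K ×ˢ (univ : Set ℝ) ×ˢ An K, F c u ≤
      ENNReal.ofReal (Real.sqrt W * (S₀ * Real.exp ((κ + ε / 16 + ε / 16) * x))) := by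
    calc ∑ c, ∫⁻ u in Fd K ×ˢ (univ : Set ℝ) ×ˢ An K, F c u
        ≤ ∑ c, ∑' i : ℕ, ∫⁻ u in Sp' K ((n : ℝ) - i), F c u :=
          Finset.sum_le_sum fun c _ => cover hn (F c) (hsupp c)
      _ = ∑' i : ℕ, ∑ c, ∫⁻ u in Sp' K ((n : ℝ) - i), F c u :=
          (Summable.tsum_finsetSum fun c _ => ENNReal.summable).symm
      _ ≤ ∑' i : ℕ, ENNReal.ofReal (Real.sqrt W * sg i) := ENNReal.tsum_le_tsum hpc
      _ = ENNReal.ofReal (Real.sqrt W * (S₀ * Real.exp ((κ + ε / 16 + ε / 16) * x))) := by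
          have h1 : ∀ i : ℕ, Real.sqrt W * sg i = (Real.sqrt W * (Real.exp (ε / 16 * n) *
              Real.exp ((κ + ε / 16 + ε / 16) * x))) * Real.exp (-(ε / 16)) ^ i := by
            intro i
            rw [hsg]
            simp only
            rw [← Real.exp_nat_mul, mul_assoc, ← Real.exp_add, ← Real.exp_add]
            congr 2
            ring
          have h2 : Summable (fun i : ℕ => (Real.sqrt W * (Real.exp (ε / 16 * n) *
              Real.exp ((κ + ε / 16 + ε / 16) * x))) * Real.exp (-(ε / 16)) ^ i) :=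
            (summable_geometric_of_lt_one (Real.exp_pos _).le hexp1).mul_left _
          simp only [h1]
          rw [← ENNReal.ofReal_tsum_of_nonneg (fun i => by positivity) h2, tsum_mul_left,
            tsum_geometric_of_lt_one (Real.exp_pos _).le hexp1, hS₀]
          congr 1
          ring
  have hfin := fin_numQ (n := n) hε hε1 hκ0 hκ hX hd hNj hNk hHH hX2 hQ
  refine (pow_le_pow_left₀ (zero_le) hsum 2).trans ?_
  rw [← ENNReal.ofReal_pow (by positivity)]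
  refine ENNReal.ofReal_le_ofReal ?_
  have e4 : Real.exp ((κ + ε / 16 + ε / 16) * x) ^ 2 =
      Real.exp ((2 * κ + ε / 8 + 2 * (ε / 16)) * Real.log X) := by
    rw [← Real.exp_nat_mul]
    congr 1
    push_cast
    rw [← hx]
    ring
  rw [mul_pow, mul_pow, Real.sq_sqrt hW0, e4]
  calc W * (S₀ ^ 2 * Real.exp ((2 * κ + ε / 8 + 2 * (ε / 16)) * Real.log X))
      = (C₅ * (classNumber K * regulator K) * B ^ 2 * Λ * (cw K * ((dvs K q).card * D)) *
        (HH H)⁻¹ * ((Real.exp (3 * n) * (1 + 3 ^ n)) * (1 + ρ)) * S₀ ^ 2) *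
          (Q ^ (ε / 8) * Real.exp ((2 * κ + ε / 8 + 2 * (ε / 16)) * Real.log X)) := by
        rw [hW]
        ring
    _ ≤ (C₅ * (classNumber K * regulator K) * B ^ 2 * Λ * (cw K * ((dvs K q).card * D)) *
        (HH H)⁻¹ * ((Real.exp (3 * n) * (1 + 3 ^ n)) * (1 + ρ)) * S₀ ^ 2) *
          (3 ^ n * Q ^ ε) := mul_le_mul_of_nonneg_left hfin (by positivity)
    _ = _ := by ring

end Pool.Agent.H19.FW.BS
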